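import Pool.Agent.W710.DP.Stm1

/-! DUAL: linear duality for relative cycles -/

set_option autoImplicit false

namespace Pool.Agent.W153.DP

open Pool.Agent.W710.DP Finsupp

theorem zmod2_eq (a : ZMod 2) : a = 0 ∨ a = 1 := by
  revert a; decide

theorem t_dual : S_dual := by
  intro Z hs P Q hno
  have : Fact (Nat.Prime 2) := ⟨Nat.prime_two⟩
  let V : Submodule (ZMod 2) (List Z →₀ ZMod 2) :=
    Finsupp.supported (ZMod 2) (ZMod 2) {t | t.length = hs.length + 1 ∧ P t}
  let W : Submodule (ZMod 2) (List Z →₀ ZMod 2) :=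
    Finsupp.supported (ZMod 2) (ZMod 2) {t | ∀ p ∈ t, Q p}
  let φ : V →ₗ[ZMod 2] (List Z →₀ ZMod 2) ⧸ W := W.mkQ ∘ₗ bd ∘ₗ V.subtype
  let f : V →ₗ[ZMod 2] ZMod 2 := pr (ev hs) ∘ₗ V.subtype
  have hker : ∀ v : V, φ v = 0 → f v = 0 := by
    intro v hv
    rcases zmod2_eq (f v) with h | h
    · exact h
    · exfalso
      apply hno
      refine ⟨v.1, ?_, ?_, h⟩
      · intro t ht
        exact v.2 ht
      · intro t ht p hp
        have h1 : bd v.1 ∈ W := by
          have : W.mkQ (bd v.1) = 0 := hv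
          rwa [Submodule.mkQ_apply, Submodule.Quotient.mk_eq_zero] at this
        exact h1 ht p hp
  have hf : f ∈ (LinearMap.ker φ).dualAnnihilator := by
    rw [Submodule.mem_dualAnnihilator]
    intro v hv
    exact hker v (LinearMap.mem_ker.mp hv)
  rw [← LinearMap.range_dualMap_eq_dualAnnihilator_ker] at hf
  obtain ⟨g, hg⟩ := hf
  refine ⟨fun t => g (W.mkQ (single t 1)), ?_, ?_⟩
  · intro t ht
    have h1 : (single t (1 : ZMod 2)) ∈ W := Finsupp.single_mem_supported _ _ ht
    have h2 : W.mkQ (single t (1 : ZMod 2)) = 0 := by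
      rw [Submodule.mkQ_apply, Submodule.Quotient.mk_eq_zero]; exact h1
    simp only [h2, map_zero]
  · intro t ht hP
    have h1 : (single t (1 : ZMod 2)) ∈ V := Finsupp.single_mem_supported _ _ ⟨ht, hP⟩
    have h2 : g (φ ⟨single t 1, h1⟩) = f ⟨single t 1, h1⟩ := by
      have := LinearMap.congr_fun hg ⟨single t 1, h1⟩
      simpa using this
    have h3 : f ⟨single t 1, h1⟩ = ev hs t := by
      show pr (ev hs) (single t 1) = _
      simp [pr, Finsupp.linearCombination_single]
    have h4 : φ ⟨single t 1, h1⟩ = W.mkQ (bdL t) := by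
      show W.mkQ (bd (single t 1)) = _
      simp [bd, Finsupp.linearCombination_single]
    rw [← h3, ← h2, h4]
    have h5 : g ∘ₗ W.mkQ = pr (fun t => g (W.mkQ (single t 1))) := by
      apply Finsupp.lhom_ext
      intro a b
      simp [pr, Finsupp.linearCombination_single]
      rcases zmod2_eq b with rfl | rfl
      · simp
      · simp
    unfold cob
    rw [← h5]
    rfl

end Pool.Agent.W153.DP
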