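import Pool.Agent.W710.DP.Stm1

/-! REPL: replacement lemma for relative cycles -/

set_option autoImplicit false

namespace Pool.Agent.W153.DP

open Pool.Agent.W710.DP Finsupp

variable {Z : Type}

theorem z2_add_self (a : ZMod 2) : a + a = 0 := by revert a; decide

theorem z2_add_eq_zero {a b : ZMod 2} (h : a + b = 0) : a = b := by
  revert a b; decide

theorem cob_nil (A : List Z → ZMod 2) : cob A [] = 0 := by
  simp [cob, bdL]

theorem cob_cons (A : List Z → ZMod 2) (x : Z) (t : List Z) :
    cob A (x :: t) = A t + cob (fun u => A (x :: u)) t := by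
  simp only [cob, bdL, map_add, pr, Finsupp.linearCombination_single, one_smul,
    Finsupp.linearCombination_mapDomain]
  rfl

theorem cob_mul (c : ZMod 2) (A : List Z → ZMod 2) (t : List Z) :
    cob (fun u => c * A u) t = c * cob A t := by
  simp only [cob, pr, Finsupp.linearCombination_apply, Finsupp.sum, smul_eq_mul, Finset.mul_sum]
  apply Finset.sum_congr rfl
  intro u _
  ring

/-- product of the coboundary of a function with a cochain -/
def dR (h : Z → ZMod 2) (R : List Z → ZMod 2) : List Z → ZMod 2
  | x :: y :: t => (h x + h y) * R (y :: t)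
  | _ => 0

theorem cob_dR (h : Z → ZMod 2) (R : List Z → ZMod 2) (x y y' : Z) (t : List Z) :
    cob (dR h R) (x :: y :: y' :: t) = (h x + h y) * cob R (y :: y' :: t) := by
  rw [cob_cons, cob_cons, cob_cons R y]
  have h1 : (fun u => (fun u => dR h R (x :: u)) (y :: u)) =
      fun u => (h x + h y) * (fun u => R (y :: u)) u := by
    funext u; rfl
  rw [h1, cob_mul]
  simp only [dR]
  have h2 := z2_add_self (h y')
  linear_combination (R (y' :: t)) * h2

theorem ev_cons (h : Z → ZMod 2) (hs : List (Z → ZMod 2)) : ev (h :: hs) = dR h (ev hs) := by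
  funext t
  match t with
  | [] => rfl
  | [x] => rfl
  | x :: y :: t => rfl

theorem cob_ev (hs : List (Z → ZMod 2)) : ∀ t : List Z, t.length = hs.length + 2 →
    cob (ev hs) t = 0 := by
  induction hs with
  | nil =>
    intro t ht
    match t, ht with
    | [x, y], _ =>
      rw [cob_cons, cob_cons, cob_nil]
      simp only [ev, add_zero]
      decide
  | cons h hs ih =>
    intro t ht
    match t, ht with
    | x :: y :: y' :: t, ht =>
      rw [ev_cons, cob_dR, ih _ (by simpa using ht), mul_zero]

/-- the primitive -/
def Tr : List (Z → ZMod 2) → (Z → ZMod 2) → List (Z → ZMod 2) → List Z → ZMod 2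
  | [], u, B => fun t => match t with
    | [] => 0
    | x :: t => u x * ev B (x :: t)
  | h :: A, u, B => dR h (Tr A u B)

theorem cob_Tr (A : List (Z → ZMod 2)) (u : Z → ZMod 2) (B : List (Z → ZMod 2)) :
    ∀ t : List Z, t.length = A.length + B.length + 2 →
    cob (Tr A u B) t = ev (A ++ u :: B) t := by
  induction A with
  | nil =>
    intro t ht
    match t, ht with
    | x :: y :: t, ht =>
      have h0 := cob_ev B (x :: y :: t) (by simpa using ht)
      rw [cob_cons] at h0 ⊢
      have h1 : (fun v => Tr [] u B (x :: v)) = fun v => u x * (fun v => ev B (x :: v)) v := by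
        funext v; rfl
      rw [h1, cob_mul, ← z2_add_eq_zero h0]
      simp only [Tr, List.nil_append, ev]
      ring
  | cons h A ih =>
    intro t ht
    match t, ht with
    | [], ht => simp at ht
    | [x], ht => simp at ht
    | [x, y], ht => simp at ht
    | x :: y :: y' :: t, ht =>
      show cob (dR h (Tr A u B)) _ = _
      rw [cob_dR, ih _ (by simp at ht ⊢; omega)]
      rfl

theorem ev_add (A : List (Z → ZMod 2)) (a b : Z → ZMod 2) (B : List (Z → ZMod 2)) :
    ∀ t : List Z, ev (A ++ (fun p => a p + b p) :: B) t = ev (A ++ a :: B) t +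
      ev (A ++ b :: B) t := by
  induction A with
  | nil =>
    intro t
    match t with
    | [] => simp [ev]
    | [x] => simp [ev]
    | x :: y :: t =>
      simp only [List.nil_append, ev]
      ring
  | cons h A ih =>
    intro t
    match t with
    | [] => simp [ev]
    | [x] => simp [ev]
    | x :: y :: t =>
      simp only [List.cons_append, ev, ih]
      ring

theorem pr_cob (R : List Z → ZMod 2) (z : List Z →₀ ZMod 2) : pr (cob R) z = pr R (bd z) := by
  have h : pr (cob R) = pr R ∘ₗ bd := by
    apply Finsupp.lhom_ext
    intro a b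
    simp only [pr, bd, LinearMap.comp_apply, Finsupp.linearCombination_single, map_smul]
    rfl
  rw [h]; rfl

theorem pr_eq_zero (R : List Z → ZMod 2) (z : List Z →₀ ZMod 2) (h : ∀ t ∈ z.support, R t = 0) :
    pr R z = 0 := by
  simp only [pr, Finsupp.linearCombination_apply, Finsupp.sum, smul_eq_mul]
  apply Finset.sum_eq_zero
  intro t ht
  rw [h t ht, mul_zero]

theorem pr_congr (R S : List Z → ZMod 2) (z : List Z →₀ ZMod 2)
    (h : ∀ t ∈ z.support, R t = S t) : pr R z = pr S z := by
  simp only [pr, Finsupp.linearCombination_apply, Finsupp.sum, smul_eq_mul]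
  apply Finset.sum_congr rfl
  intro t ht
  rw [h t ht]

theorem pr_add (R S : List Z → ZMod 2) (z : List Z →₀ ZMod 2) :
    pr (fun t => R t + S t) z = pr R z + pr S z := by
  simp only [pr, Finsupp.linearCombination_apply, Finsupp.sum, smul_eq_mul, mul_add,
    Finset.sum_add_distrib]

theorem ev_zero (B : List (Z → ZMod 2)) : ∀ t : List Z,
    (∃ h ∈ B, ∃ c, ∀ p ∈ t, h p = c) → ev B t = 0 := by
  induction B with
  | nil => intro t ⟨h, hh, _⟩; simp at hh
  | cons b B ih =>
    intro t ⟨h, hh, c, hc⟩
    match t with
    | [] => rfl
    | [x] => rfl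
    | x :: y :: t =>
      simp only [ev]
      rcases List.mem_cons.mp hh with rfl | hh
      · rw [hc x (by simp), hc y (by simp), z2_add_self, zero_mul]
      · rw [ih (y :: t) ⟨h, hh, c, fun p hp => hc p (List.mem_cons_of_mem _ hp)⟩, mul_zero]

theorem Tr_zero (A : List (Z → ZMod 2)) (u : Z → ZMod 2) (B : List (Z → ZMod 2)) :
    ∀ t : List Z, ((∃ h ∈ A, ∃ c, ∀ p ∈ t, h p = c) ∨ (∀ p ∈ t, u p = 0) ∨
      (∃ h ∈ B, ∃ c, ∀ p ∈ t, h p = c)) → Tr A u B t = 0 := by
  induction A with
  | nil =>
    intro t ht
    match t with
    | [] => rfl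
    | x :: t =>
      simp only [Tr]
      rcases ht with ⟨h, hh, _⟩ | h | h
      · simp at hh
      · rw [h x (by simp), zero_mul]
      · rw [ev_zero B _ h, mul_zero]
  | cons a A ih =>
    intro t ht
    match t with
    | [] => rfl
    | [x] => rfl
    | x :: y :: t =>
      show (a x + a y) * Tr A u B (y :: t) = 0
      rcases ht with ⟨h, hh, c, hc⟩ | h | ⟨h, hh, c, hc⟩
      · rcases List.mem_cons.mp hh with rfl | hh
        · rw [hc x (by simp), hc y (by simp), z2_add_self, zero_mul]
        · rw [ih (y :: t) (Or.inl ⟨h, hh, c, fun p hp => hc p (List.mem_cons_of_mem _ hp)⟩),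
            mul_zero]
      · rw [ih (y :: t) (Or.inr (Or.inl fun p hp => h p (List.mem_cons_of_mem _ hp))), mul_zero]
      · rw [ih (y :: t) (Or.inr (Or.inr ⟨h, hh, c, fun p hp =>
          hc p (List.mem_cons_of_mem _ hp)⟩)), mul_zero]

theorem repl_aux (z : List Z →₀ ZMod 2) : ∀ (α β pre : List (Z → ZMod 2)),
    α.length = β.length → (∀ t ∈ z.support, t.length = pre.length + α.length + 1) →
    (∀ t ∈ (bd z).support, (∃ h ∈ pre, ∃ c, ∀ p ∈ t, h p = c) ∨
      ∃ i < α.length, ∃ c : ZMod 2, ∀ p ∈ t, α.getD i 0 p = c ∧ β.getD i 0 p = c) →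
    pr (ev (pre ++ α)) z = pr (ev (pre ++ β)) z := by
  intro α
  induction α with
  | nil =>
    intro β pre hl _ _
    have : β = [] := List.length_eq_zero_iff.mp hl.symm
    rw [this]
  | cons a α ih =>
    intro β pre hl hz hb
    match β, hl with
    | b :: β, hl =>
      have hl' : α.length = β.length := by simpa using hl
      have h1 : pr (ev (pre ++ a :: α)) z = pr (ev (pre ++ b :: α)) z := by
        apply z2_add_eq_zero
        rw [← pr_add]
        rw [pr_congr _ (cob (Tr pre (fun p => a p + b p) α)) z]
        · rw [pr_cob]
          apply pr_eq_zero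
          intro t ht
          apply Tr_zero
          rcases hb t ht with h | ⟨i, hi, c, hc⟩
          · exact Or.inl h
          · match i, hi, hc with
            | 0, _, hc =>
              right; left
              intro p hp
              have := hc p hp
              simp only [List.getD_cons_zero] at this
              rw [this.1, this.2, z2_add_self]
            | i + 1, hi, hc =>
              right; right
              have hi' : i < α.length := by simpa using hi
              refine ⟨α[i], List.getElem_mem hi', c, ?_⟩
              intro p hp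
              have := (hc p hp).1
              rw [List.getD_cons_succ, List.getD_eq_getElem _ _ hi'] at this
              exact this
        · intro t ht
          rw [cob_Tr pre _ α t (by rw [hz t ht]; simp; omega), ev_add]
      rw [h1]
      have h2 := ih β (pre ++ [b]) hl' (by intro t ht; rw [hz t ht]; simp; omega) (by
        intro t ht
        rcases hb t ht with ⟨h, hh, h'⟩ | ⟨i, hi, c, hc⟩
        · exact Or.inl ⟨h, List.mem_append_left _ hh, h'⟩
        · match i, hi, hc with
          | 0, _, hc =>
            left
            refine ⟨b, by simp, c, fun p hp => ?_⟩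
            have := (hc p hp).2
            simpa using this
          | i + 1, hi, hc =>
            right
            refine ⟨i, by simpa using hi, c, fun p hp => ?_⟩
            have := hc p hp
            simpa [List.getD_cons_succ] using this)
      simpa using h2

theorem t_repl : S_repl := by
  intro Z α β z hl hz hb
  have := repl_aux z α β [] hl (by intro t ht; rw [hz t ht]; simp) (fun t ht => Or.inr (hb t ht))
  simpa using this

end Pool.Agent.W153.DP
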